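import Pool.Agent.H321R2.OB.Asy

set_option autoImplicit false

/-! # Odd covers of `[n]^d` by odd proper boxes

The smallest number of odd proper boxes which cover every point of `[n]^d` (`n` odd) an odd number of times
is `2^(d+1) - 1` whenever `n ≥ d + 2`, it is never smaller, and it is `(2 + o(1))^d` as `n, d → ∞`.
Construction: the boxes are indexed by the nonzero vectors `b` of `F_2^(d+1)`, with all sides equal to
`{v : λ(v)·b = 0}`, where `λ` runs through a basis of `F_2^(d+1)`, the sum of the basis, and zeros. -/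

namespace Pool.Agent.Results.MP_8c362f_co.OddCovers

open Finset

/-- There is a family of `N` odd proper boxes in `[n]^d` which covers every point an odd number of
times. -/
def HasOddCover (n d N : ℕ) : Prop :=
  ∃ P : Fin N → Fin d → Finset (Fin n), (∀ j i, Odd (P j i).card ∧ P j i ≠ univ) ∧
    ∀ x : Fin d → Fin n, Odd (univ.filter (fun j => ∀ i, x i ∈ P j i)).card

theorem result :
    -- (1) lower bound for odd covers
    (∀ n d N : ℕ, Odd n → 3 ≤ n → HasOddCover n d N → 2 ^ (d + 1) - 1 ≤ N) ∧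
    -- (2) hence for partitions into odd proper boxes
    (∀ n d k : ℕ, Odd n → 3 ≤ n → ∀ P : Fin k → Fin d → Finset (Fin n),
      (∀ j i, Odd (P j i).card ∧ P j i ≠ univ) →
      (∀ x : Fin d → Fin n, ∃! j, ∀ i, x i ∈ P j i) → 2 ^ (d + 1) - 1 ≤ k) ∧
    -- (3) the bound (1) is attained for all odd `n ≥ d + 2`
    (∀ n d : ℕ, Odd n → d + 2 ≤ n → HasOddCover n d (2 ^ (d + 1) - 1)) ∧
    -- (4) every `n` and `d`
    (∀ n d : ℕ, Odd n → 3 ≤ n → ∃ N : ℕ, N ≤ 2 ^ (d + d / (n - 2) + 1) ∧ HasOddCover n d N) ∧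
    -- (5) the odd cover version of Q1 is true
    (∀ ε : ℝ, 0 < ε → ∃ n₀ D : ℕ, ∀ n d : ℕ, Odd n → n₀ ≤ n → D ≤ d →
      ∃ N : ℕ, (N : ℝ) ≤ (2 + ε) ^ d ∧ HasOddCover n d N) := by
  refine ⟨fun n d N hn hn3 h => H321R2.OB.lower hn hn3 h, ?_,
    fun n d hn hnd => H321R2.OB.construction hn hnd,
    fun n d hn hn3 => H321R2.OB.upper hn hn3 d, fun ε hε => H321R2.OB.asymptotic ε hε⟩
  intro n d k hn hn3 P hP hx
  apply H321R2.OB.lower hn hn3 (d := d)
  refine ⟨P, hP, fun x => ?_⟩
  obtain ⟨j, hj, huniq⟩ := hx x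
  have : (univ.filter (fun j => ∀ i, x i ∈ P j i)) = {j} := by
    ext j'
    simp only [Finset.mem_filter, Finset.mem_univ, true_and, Finset.mem_singleton]
    exact ⟨fun h => huniq j' h, fun h => h ▸ hj⟩
  rw [this]
  simp

end Pool.Agent.Results.MP_8c362f_co.OddCovers
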