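import Pool.Agent.H321R2.OB.Sep

set_option autoImplicit false

/-! # Pairs of values inside the sides of odd proper boxes

Weighted form of the `3^d` bound for bricks: test sets `{a}`, `{b}`, `[n] \ {a, b}` in the coordinates of
`S`, all odd proper subsets of `[n]` in the others. -/

namespace Pool.Agent.Results.MP_8c362f_co.SeparatedPairs

open Finset

theorem result (n d N : ℕ) (hn : Odd n) (hn3 : 3 ≤ n) (P : Fin N → Fin d → Finset (Fin n))
    (hP : ∀ j i, Odd (P j i).card ∧ P j i ≠ univ)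
    -- every point is covered an odd number of times (for example exactly once)
    (hcov : ∀ x : Fin d → Fin n, Odd (univ.filter (fun j => ∀ i, x i ∈ P j i)).card)
    (S : Finset (Fin d)) (a b : Fin d → Fin n) (hab : ∀ i ∈ S, a i ≠ b i) :
    (3 ^ S.card * (2 ^ (n - 1) - 1) ^ (d - S.card) ≤
      (2 ^ (n - 2) - 1) ^ (d - S.card) *
        ∑ j, 3 ^ (S.filter (fun i => a i ∈ P j i ∧ b i ∈ P j i)).card) ∧
    ((∀ j, ∀ i ∈ S, ¬ (a i ∈ P j i ∧ b i ∈ P j i)) →
      3 ^ S.card * (2 ^ (n - 1) - 1) ^ (d - S.card) ≤ N * (2 ^ (n - 2) - 1) ^ (d - S.card)) := by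
  have h := H321R2.OB.pairs hn hn3 P hP hcov S a b hab
  refine ⟨h, fun hsep => ?_⟩
  have h2 : ∑ j : Fin N, 3 ^ (S.filter (fun i => a i ∈ P j i ∧ b i ∈ P j i)).card = N := by
    have : ∀ j ∈ (univ : Finset (Fin N)),
        3 ^ (S.filter (fun i => a i ∈ P j i ∧ b i ∈ P j i)).card = 1 := by
      intro j _
      have h3 : S.filter (fun i => a i ∈ P j i ∧ b i ∈ P j i) = ∅ := by
        apply Finset.filter_false_of_mem
        intro i hi
        exact hsep j i hi
      rw [h3]; simp
    rw [Finset.sum_congr rfl this]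
    simp
  rw [h2, mul_comm (((2 ^ (n - 2) - 1) ^ (d - S.card))) N] at h
  exact h

end Pool.Agent.Results.MP_8c362f_co.SeparatedPairs
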